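import Mathlib
import Pool.Agent.H2.MG11

set_option autoImplicit false

namespace Pool.Agent.Results.MP_e45129_gt.AlmostMin

open Filter Topology Set

/-- the set `(1/n)U` -/
def frac {G : Type} [AddCommGroup G] (U : Set G) (n : ℕ) : Set G :=
  {x | ∀ k : ℕ, 1 ≤ k → k ≤ n → k • x ∈ U}

/-- no strictly coarser Hausdorff group topology -/
def Minimal (G : Type) [AddCommGroup G] [t : TopologicalSpace G] : Prop :=
  ∀ s : TopologicalSpace G, @IsTopologicalAddGroup G s _ → @T2Space G s → t ≤ s → s = t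

/-- locally minimal -/
def LocMinimal (G : Type) [AddCommGroup G] [t : TopologicalSpace G] : Prop :=
  ∃ V ∈ nhds (0 : G), ∀ s : TopologicalSpace G, @IsTopologicalAddGroup G s _ → @T2Space G s →
    t ≤ s → V ∈ @nhds G s 0 → s = t

/-- uniformly free from small subgroups -/
def UFSS (G : Type) [AddCommGroup G] [TopologicalSpace G] : Prop :=
  T2Space G ∧ ∃ U ∈ nhds (0 : G), (∀ x ∈ U, -x ∈ U) ∧
    (nhds (0 : G)).HasBasis (fun n : ℕ => 1 ≤ n) (frac U)

/-- GTG subsets -/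
def IsGTG {G : Type} [AddCommGroup G] (U : Set G) : Prop :=
  (0 : G) ∈ U ∧ (∀ x ∈ U, -x ∈ U) ∧ ∃ s : TopologicalSpace G, @IsTopologicalAddGroup G s _ ∧
    (@nhds G s 0).HasBasis (fun n : ℕ => 1 ≤ n) (frac U)

/-- locally GTG -/
def LocGTG (G : Type) [AddCommGroup G] [TopologicalSpace G] : Prop :=
  ∀ W ∈ nhds (0 : G), ∃ U ∈ nhds (0 : G), U ⊆ W ∧ IsGTG U

/-- almost minimal -/
def AlmostMinimal (G : Type) [AddCommGroup G] [TopologicalSpace G] : Prop :=
  ∃ N : AddSubgroup G, IsClosed (N : Set G) ∧ Minimal N ∧ UFSS (G ⧸ N)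

theorem frac_nhds {G : Type} [AddCommGroup G] [TopologicalSpace G] [IsTopologicalAddGroup G]
    {U : Set G} (hU : U ∈ nhds (0 : G)) (n : ℕ) : frac U n ∈ nhds (0 : G) :=
  mem_of_superset ((biInter_mem (finite_Iic n)).2 fun k _ =>
    (continuous_nsmul k).tendsto' (0 : G) 0 (smul_zero k) hU) fun _ hx k _ hk => mem_iInter₂.1 hx k hk

/-- Complete, locally GTG, locally minimal abelian groups are almost minimal. -/
theorem result (G : Type) [AddCommGroup G] [UniformSpace G] [IsUniformAddGroup G] [T2Space G]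
    [CompleteSpace G] (h1 : LocGTG G) (h2 : LocMinimal G) : AlmostMinimal G := by
  obtain ⟨V, hV, h⟩ := h2
  obtain ⟨W, hW, hWV⟩ := exists_nhds_zero_half hV
  obtain ⟨U, hU, hUW, -, -, t, ht, hb⟩ := h1 W hW
  have hL := H2.MG.add_gf t ht
  generalize @nhds G t 0 = L at hb hL
  clear ht t
  have ha : Tendsto (fun p : G × G => p.1 + p.2) (L ×ˢ L) L := hL.mul
  have hn : Tendsto (fun x : G => -x) L L := hL.inv
  have h3 : 𝓝 0 ≤ L := hb.ge_iff.2 fun n _ => frac_nhds hU n
  have h4 : U ∈ L := mem_of_superset (hb.mem_of_mem le_rfl) fun x hx => by simpa using hx 1 le_rfl le_rfl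
  have : T2Space (Multiplicative G) := inferInstanceAs (T2Space G)
  let N : AddSubgroup G :=
    { carrier := {x | pure x ≤ L}
      zero_mem' := (pure_le_nhds 0).trans h3
      add_mem' := fun {x y} hx hy => by
        simpa [Tendsto] using ha.mono_left (prod_mono hx hy)
      neg_mem' := fun {x} hx => by simpa [Tendsto] using hn.mono_left hx }
  have key : ∀ F : Ultrafilter G, ↑F ≤ L → ∃ y ∈ N, ↑F ≤ 𝓝 y := fun F hF => by
    obtain ⟨y, hy⟩ := H2.MG.add_conv (G := G) (fun U' hU' => H2.MG.rpF (G := Multiplicative G)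
      (H2.MG.add_lm h) hW hWV hL (mem_of_superset h4 hUW) hU') F hF
    have h5 : Tendsto (fun x => y - x) F L := Tendsto.mono_right
      (by simpa using (tendsto_const_nhds (x := y)).sub (show Tendsto id F (𝓝 y) from hy)) h3
    have h6 : map (fun _ => y) (F : Filter G) ≤ L := by
      simpa [Tendsto, Function.comp_def] using ha.comp (h5.prodMk hF)
    rw [Filter.map_const] at h6
    exact ⟨y, h6, hy⟩
  have hK : IsCompact (N : Set G) := isCompact_iff_ultrafilter_le_nhds.2 fun F hF =>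
    key F fun A hA => hF (mem_principal.2 fun x hx => hx hA)
  haveI := hK.isClosed
  refine ⟨N, hK.isClosed, fun s _ h7 h8 => ?_, inferInstance, ?_⟩
  · clear ‹IsTopologicalAddGroup N›
    revert h7 h8
    exact @H2.MG.cpt_min N instTopologicalSpaceSubtype
      (@isCompact_iff_compactSpace G _ N |>.1 hK) s
  have h5 : map (QuotientAddGroup.mk) L ≤ 𝓝 (0 : G ⧸ N) :=
    map_le_iff_le_comap.2 (le_iff_ultrafilter.2 fun F hF => by
      obtain ⟨y, h1, h2⟩ := key F hF
      rw [← (QuotientAddGroup.eq_zero_iff y).2 h1]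
      exact tendsto_iff_comap.1 ((QuotientAddGroup.continuous_mk.tendsto y).mono_left h2))
  obtain ⟨A, hA, hAU⟩ := mem_prod_self_iff.1 (ha h4)
  have h6 : QuotientAddGroup.mk '' (A ∩ (fun x => -x) ⁻¹' A) ∈ 𝓝 (0 : G ⧸ N) := by
    rw [← QuotientAddGroup.mk_zero, QuotientAddGroup.nhds_eq]
    exact image_mem_map (h3 (inter_mem hA (hn hA)))
  refine ⟨_, h6, ?_, hasBasis_iff.2 fun T => ⟨fun hT => ?_, fun ⟨n, _, hT⟩ =>
    mem_of_superset (frac_nhds h6 n) hT⟩⟩
  · rintro _ ⟨x, hx, rfl⟩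
    exact ⟨-x, ⟨hx.2, by simpa using hx.1⟩, rfl⟩
  obtain ⟨n, h7, h8⟩ := hb.mem_iff.1 (mem_map.1 (h5 hT))
  refine ⟨n, h7, fun z hz => ?_⟩
  obtain ⟨x, rfl⟩ := QuotientAddGroup.mk_surjective z
  refine h8 fun k k1 k2 => ?_
  obtain ⟨a, a1, a2⟩ := hz k k1 k2
  have h9 : -a + k • x ∈ N := QuotientAddGroup.eq.1 a2
  simpa using hAU (show (a, -a + k • x) ∈ A ×ˢ A from ⟨a1.1, h9 hA⟩)

end Pool.Agent.Results.MP_e45129_gt.AlmostMin
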